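import Mathlib

/-!
# Explicit relations between powers of `X`, `Y`, `Z` with `X + Y + Z = 0`
-/

set_option autoImplicit false

namespace Pool.Agent.Helper4.PL

open Finset intervalIntegral

/-- the coefficient polynomial -/
def cf (a b c : ℕ) {R : Type*} [CommRing R] (Z Y : R) : R :=
  ∑ i ∈ range (c + 1), ((a + i).choose i * (a + b + c + 1).choose (c - i) : ℕ) * (Z ^ i * Y ^ (c - i))

/-- the integral of `(t - s) ^ a (t - u) ^ b` from `s` to `u` -/
theorem int_two (a b : ℕ) (s u : ℝ) : ∫ t in s..u, (t - s) ^ a * (t - u) ^ b =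
    (-1) ^ b * (u - s) ^ (a + b + 1) * (a.factorial * b.factorial / (a + b + 1).factorial) := by
  induction b generalizing a with
  | zero =>
    have h : ∀ t : ℝ, HasDerivAt (fun t => (t - s) ^ (a + 1) / ((a : ℝ) + 1)) ((t - s) ^ a * (t - u) ^ 0) t := by
      intro t
      have h1 := (((hasDerivAt_id t).sub_const s).pow (a + 1)).div_const ((a : ℝ) + 1)
      refine h1.congr_deriv ?_
      have : (a : ℝ) + 1 ≠ 0 := by positivity
      simp
      field_simp
    rw [integral_eq_sub_of_hasDerivAt (fun t _ => h t)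
      ((by fun_prop : Continuous fun t : ℝ => (t - s) ^ a * (t - u) ^ 0).intervalIntegrable _ _)]
    have h3 : ((a + 0 + 1).factorial : ℝ) = ((a : ℝ) + 1) * a.factorial := by
      rw [add_zero, Nat.factorial_succ]; push_cast; ring
    have h2 : (a.factorial : ℝ) ≠ 0 := by positivity
    have : (a : ℝ) + 1 ≠ 0 := by positivity
    rw [h3]
    simp
    field_simp
  | succ b ih =>
    have h : ∀ t : ℝ, HasDerivAt (fun t => (t - s) ^ (a + 1) * (t - u) ^ (b + 1))
        (((a : ℝ) + 1) * ((t - s) ^ a * (t - u) ^ (b + 1)) +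
          ((b : ℝ) + 1) * ((t - s) ^ (a + 1) * (t - u) ^ b)) t := by
      intro t
      have h1 := (((hasDerivAt_id t).sub_const s).pow (a + 1)).mul
        (((hasDerivAt_id t).sub_const u).pow (b + 1))
      refine h1.congr_deriv ?_
      simp
      ring
    have h1 := integral_eq_sub_of_hasDerivAt (a := s) (b := u) (fun t _ => h t)
      ((by fun_prop : Continuous fun t : ℝ => ((a : ℝ) + 1) * ((t - s) ^ a * (t - u) ^ (b + 1)) +
          ((b : ℝ) + 1) * ((t - s) ^ (a + 1) * (t - u) ^ b)).intervalIntegrable _ _)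
    rw [integral_add ((by fun_prop : Continuous fun t : ℝ => ((a : ℝ) + 1) * ((t - s) ^ a *
        (t - u) ^ (b + 1))).intervalIntegrable _ _) ((by fun_prop : Continuous fun t : ℝ =>
        ((b : ℝ) + 1) * ((t - s) ^ (a + 1) * (t - u) ^ b)).intervalIntegrable _ _),
      integral_const_mul, integral_const_mul, ih (a + 1)] at h1
    simp only [sub_self, ne_eq, Nat.add_eq_zero_iff, one_ne_zero, and_false, not_false_eq_true,
      zero_pow, mul_zero, zero_mul] at h1
    have h2 : (a : ℝ) + 1 ≠ 0 := by positivity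
    have h3 : (a + 1 + b + 1).factorial = (a + (b + 1) + 1).factorial := by congr 1; ring
    have h4 : a + 1 + b + 1 = a + (b + 1) + 1 := by ring
    rw [h3, h4] at h1
    have h5 : ((a + 1).factorial : ℝ) = ((a : ℝ) + 1) * a.factorial := by
      rw [Nat.factorial_succ]; push_cast; ring
    have h6 : ((b + 1).factorial : ℝ) = ((b : ℝ) + 1) * b.factorial := by
      rw [Nat.factorial_succ]; push_cast; ring
    rw [h5] at h1
    rw [h6]
    apply mul_left_cancel₀ h2
    rw [pow_succ (-1 : ℝ) b]
    linear_combination h1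

/-- the normalising factor -/
noncomputable def nf (a b c : ℕ) : ℝ :=
  (a + b + c + 1).factorial / (a.factorial * b.factorial * c.factorial)

theorem nf_pos (a b c : ℕ) : 0 < nf a b c := by
  rw [nf]; positivity

theorem nf_cyc (a b c : ℕ) : nf b c a = nf a b c := by
  rw [nf, nf, show b + c + a + 1 = a + b + c + 1 by ring]
  congr 1
  ring

theorem nf_swap (a b c : ℕ) : nf a c b = nf a b c := by
  rw [nf, nf, show a + c + b + 1 = a + b + c + 1 by ring]
  congr 1
  ring

theorem nf_coeff {a b c i : ℕ} (hi : i ≤ c) : nf a b c * ((c.choose i : ℝ) *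
    ((a + i).factorial * b.factorial / (a + i + b + 1).factorial)) =
    (((a + i).choose i * (a + b + c + 1).choose (c - i) : ℕ) : ℝ) := by
  obtain ⟨e, rfl⟩ := Nat.exists_eq_add_of_le hi
  have h1 : ((i + e).choose i : ℝ) * (i.factorial * e.factorial) = (i + e).factorial := by
    have := Nat.add_choose_mul_factorial_mul_factorial i e
    rw [← Nat.choose_symm_add] at this
    rw [← mul_assoc]
    exact_mod_cast this
  have h2 : ((a + i).choose i : ℝ) * (i.factorial * a.factorial) = (a + i).factorial := by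
    have := Nat.add_choose_mul_factorial_mul_factorial i a
    rw [← Nat.choose_symm_add] at this
    rw [add_comm a i, ← mul_assoc]
    exact_mod_cast this
  have h3 : ((a + b + (i + e) + 1).choose e : ℝ) * (e.factorial * (a + i + b + 1).factorial) =
      (a + b + (i + e) + 1).factorial := by
    have := Nat.add_choose_mul_factorial_mul_factorial e (a + i + b + 1)
    rw [← Nat.choose_symm_add] at this
    rw [show a + b + (i + e) + 1 = e + (a + i + b + 1) by ring, ← mul_assoc]
    exact_mod_cast this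
  have h4 : i + e - i = e := by omega
  rw [h4, nf]
  push_cast
  rw [← h1, ← h2, ← h3]
  have k1 : (i.factorial : ℝ) ≠ 0 := by positivity
  have k2 : (e.factorial : ℝ) ≠ 0 := by positivity
  have k3 : (a.factorial : ℝ) ≠ 0 := by positivity
  have k4 : (b.factorial : ℝ) ≠ 0 := by positivity
  have k5 : ((a + i + b + 1).factorial : ℝ) ≠ 0 := by positivity
  have k6 : ((i + e).choose i : ℝ) ≠ 0 := by
    have := Nat.choose_pos (Nat.le_add_right i e)
    positivity
  field_simp

theorem int_three (a b c : ℕ) (s u w : ℝ) :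
    nf a b c * ∫ t in s..u, (t - s) ^ a * (t - u) ^ b * (t - w) ^ c =
    (-1) ^ b * (u - s) ^ (a + b + 1) * cf a b c (u - s) (s - w) := by
  have h1 : ∀ t : ℝ, (t - s) ^ a * (t - u) ^ b * (t - w) ^ c = ∑ i ∈ range (c + 1),
      ((c.choose i : ℝ) * (s - w) ^ (c - i)) * ((t - s) ^ (a + i) * (t - u) ^ b) := by
    intro t
    have h2 : t - w = (t - s) + (s - w) := by ring
    rw [h2, add_pow, mul_sum]
    refine sum_congr rfl fun i _ => ?_
    rw [pow_add]
    ring
  have h2 : ∫ t in s..u, (t - s) ^ a * (t - u) ^ b * (t - w) ^ c = ∑ i ∈ range (c + 1),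
      ((c.choose i : ℝ) * (s - w) ^ (c - i)) * ∫ t in s..u, (t - s) ^ (a + i) * (t - u) ^ b := by
    rw [integral_congr (fun t _ => h1 t), integral_finsetSum fun i _ =>
      (by fun_prop : Continuous fun t : ℝ => ((c.choose i : ℝ) * (s - w) ^ (c - i)) *
        ((t - s) ^ (a + i) * (t - u) ^ b)).intervalIntegrable _ _]
    exact sum_congr rfl fun i _ => integral_const_mul _ _
  rw [h2, mul_sum, cf, mul_sum]
  refine sum_congr rfl fun i hi => ?_
  have hic : i ≤ c := by have := mem_range.mp hi; omega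
  rw [int_two, ← nf_coeff hic]
  rw [show a + i + b + 1 = (a + b + 1) + i by ring, pow_add]
  ring

/-- three points -/
theorem int_sum (a b c : ℕ) (s u w : ℝ) :
    (-1) ^ b * (u - s) ^ (a + b + 1) * cf a b c (u - s) (s - w) +
    (-1) ^ c * (w - u) ^ (b + c + 1) * cf b c a (w - u) (u - s) +
    (-1) ^ a * (s - w) ^ (c + a + 1) * cf c a b (s - w) (w - u) = 0 := by
  have hc : ∀ p q : ℝ, IntervalIntegrable (fun t => (t - s) ^ a * (t - u) ^ b * (t - w) ^ c)
      MeasureTheory.volume p q := fun p q =>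
    (by fun_prop : Continuous fun t : ℝ => (t - s) ^ a * (t - u) ^ b * (t - w) ^ c).intervalIntegrable _ _
  have h1 := int_three a b c s u w
  have h2 := int_three b c a u w s
  have h3 := int_three c a b w s u
  rw [nf_cyc a b c] at h2
  rw [nf_cyc b c a, nf_cyc a b c] at h3
  have e2 : ∫ t in u..w, (t - u) ^ b * (t - w) ^ c * (t - s) ^ a =
      ∫ t in u..w, (t - s) ^ a * (t - u) ^ b * (t - w) ^ c :=
    integral_congr fun t _ => by ring
  have e3 : ∫ t in w..s, (t - w) ^ c * (t - s) ^ a * (t - u) ^ b =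
      ∫ t in w..s, (t - s) ^ a * (t - u) ^ b * (t - w) ^ c :=
    integral_congr fun t _ => by ring
  rw [e2] at h2
  rw [e3] at h3
  rw [← h1, ← h2, ← h3, ← mul_add, integral_add_adjacent_intervals (hc _ _) (hc _ _), ← mul_add,
    integral_add_adjacent_intervals (hc _ _) (hc _ _), integral_same, mul_zero]

theorem int_refl (a b c : ℕ) {s u w : ℝ} (h : u ≠ s) :
    cf a b c (u - s) (s - w) = (-1) ^ c * cf b a c (u - s) (w - u) := by
  have h1 := int_three a b c s u w
  have h2 := int_three b a c u s w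
  have e2 : ∫ t in u..s, (t - u) ^ b * (t - s) ^ a * (t - w) ^ c =
      - ∫ t in s..u, (t - s) ^ a * (t - u) ^ b * (t - w) ^ c := by
    rw [integral_symm]
    congr 1
    exact integral_congr fun t _ => by ring
  have e3 : nf b a c = nf a b c := by rw [← nf_cyc b a c, nf_swap a b c]
  rw [e2, e3, mul_neg, h1] at h2
  have e4 : cf b a c (s - u) (u - w) = (-1) ^ c * cf b a c (u - s) (w - u) := by
    rw [cf, cf, mul_sum]
    refine sum_congr rfl fun i hi => ?_
    obtain ⟨e, rfl⟩ := Nat.exists_eq_add_of_le (by have := mem_range.mp hi; omega : i ≤ c)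
    have h4 : i + e - i = e := by omega
    rw [h4, show s - u = (-1) * (u - s) by ring, show u - w = (-1) * (w - u) by ring, mul_pow,
      mul_pow, pow_add]
    ring
  rw [e4, show s - u = (-1) * (u - s) by ring, mul_pow] at h2
  have h5 : (u - s) ^ (a + b + 1) ≠ 0 := pow_ne_zero _ (sub_ne_zero.mpr h)
  have h6 : (-1 : ℝ) ^ a * (-1) ^ a = 1 := by rw [← mul_pow]; norm_num
  have h7 : (-1 : ℝ) ^ b * (-1) ^ b = 1 := by rw [← mul_pow]; norm_num
  rw [show b + a + 1 = a + b + 1 by ring] at h2
  apply mul_left_cancel₀ h5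
  have h8 : (-1 : ℝ) ^ (a + b + 1) = - ((-1) ^ a * (-1) ^ b) := by rw [pow_succ, pow_add]; ring
  rw [h8] at h2
  linear_combination (-(-1) ^ b) * h2 - ((u - s) ^ (a + b + 1) * cf a b c (u - s) (s - w)) * h7 +
    ((-1) ^ b * (-1) ^ b * (u - s) ^ (a + b + 1) * ((-1) ^ c * cf b a c (u - s) (w - u))) * h6 +
    ((u - s) ^ (a + b + 1) * ((-1) ^ c * cf b a c (u - s) (w - u))) * h7

end Pool.Agent.Helper4.PL
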