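import Mathlib
import Pool.Agent.Helper4.PL.Pade

/-!
# Integral relations, bounds and non-degeneracy
-/

set_option autoImplicit false

namespace Pool.Agent.Helper4.PL

open Finset

theorem cf_cast (a b c : ℕ) (Z Y : ℤ) : ((cf a b c Z Y : ℤ) : ℝ) = cf a b c (Z : ℝ) (Y : ℝ) := by
  simp only [cf]
  push_cast
  rfl

theorem syz (a b c : ℕ) {X Y Z : ℤ} (h : X + Y + Z = 0) :
    (-1) ^ b * Z ^ (a + b + 1) * cf a b c Z Y + (-1) ^ c * X ^ (b + c + 1) * cf b c a X Z +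
      (-1) ^ a * Y ^ (c + a + 1) * cf c a b Y X = 0 := by
  have h1 := int_sum a b c 0 (Z : ℝ) (-Y)
  have hX : (X : ℝ) = -Y - Z := by
    have : X = -Y - Z := by linarith
    rw [this]; push_cast; ring
  rw [sub_zero, zero_sub, neg_neg, ← hX] at h1
  simp only [← cf_cast] at h1
  exact_mod_cast h1

theorem refl' (a b c : ℕ) {P Q R : ℤ} (h : P + Q + R = 0) (hP : P ≠ 0) :
    cf a b c P Q = (-1) ^ c * cf b a c P R := by
  have h1 := int_refl a b c (s := 0) (u := (P : ℝ)) (w := -Q) (by exact_mod_cast hP)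
  have hR : (R : ℝ) = -Q - P := by
    have : R = -Q - P := by linarith
    rw [this]; push_cast; ring
  rw [sub_zero, zero_sub, neg_neg, ← hR] at h1
  simp only [← cf_cast] at h1
  exact_mod_cast h1

theorem cf_pos (a b c : ℕ) {Z Y : ℤ} (hZ : 0 < Z) (hY : 0 < Y) : 0 < cf a b c Z Y := by
  rw [cf]
  refine sum_pos (fun i hi => ?_) ⟨0, by simp⟩
  have h1 : 0 < (a + i).choose i := Nat.choose_pos (by omega)
  have h2 : 0 < (a + b + c + 1).choose (c - i) := Nat.choose_pos (by omega)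
  have h3 : (0 : ℤ) < ((a + i).choose i * (a + b + c + 1).choose (c - i) : ℕ) := by
    exact_mod_cast Nat.mul_pos h1 h2
  exact mul_pos h3 (mul_pos (pow_pos hZ _) (pow_pos hY _))

theorem cf_neg (a b c : ℕ) (Z Y : ℤ) : cf a b c (-Z) (-Y) = (-1) ^ c * cf a b c Z Y := by
  rw [cf, cf, mul_sum]
  refine sum_congr rfl fun i hi => ?_
  obtain ⟨e, rfl⟩ := Nat.exists_eq_add_of_le (by have := mem_range.mp hi; omega : i ≤ c)
  have h4 : i + e - i = e := by omega
  rw [h4, neg_pow Z, neg_pow Y, pow_add]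
  ring

theorem cf_le (a b c : ℕ) {Z Y : ℤ} {T : ℕ} (hZ : Z.natAbs ≤ T) (hY : Y.natAbs ≤ T) :
    (cf a b c Z Y).natAbs ≤ 4 ^ (a + b + c + 1) * T ^ c := by
  rw [cf]
  refine (Int.natAbs_sum_le _ _).trans ?_
  have h1 : ∀ i ∈ range (c + 1), (((a + i).choose i * (a + b + c + 1).choose (c - i) : ℕ) *
      (Z ^ i * Y ^ (c - i)) : ℤ).natAbs ≤ 2 ^ (a + c) * T ^ c * (a + b + c + 1).choose (c - i) := by
    intro i hi
    have hic : i ≤ c := by have := mem_range.mp hi; omega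
    rw [Int.natAbs_mul, Int.natAbs_mul, Int.natAbs_pow, Int.natAbs_pow, Int.natAbs_natCast]
    have h2 : (a + i).choose i ≤ 2 ^ (a + c) :=
      (Nat.choose_le_two_pow _ _).trans (Nat.pow_le_pow_right (by norm_num) (by omega))
    have h3 : Z.natAbs ^ i * Y.natAbs ^ (c - i) ≤ T ^ c := by
      calc Z.natAbs ^ i * Y.natAbs ^ (c - i) ≤ T ^ i * T ^ (c - i) :=
            Nat.mul_le_mul (Nat.pow_le_pow_left hZ _) (Nat.pow_le_pow_left hY _)
        _ = T ^ c := by rw [← pow_add]; congr 1; omega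
    calc (a + i).choose i * (a + b + c + 1).choose (c - i) * (Z.natAbs ^ i * Y.natAbs ^ (c - i))
        ≤ 2 ^ (a + c) * (a + b + c + 1).choose (c - i) * T ^ c :=
          Nat.mul_le_mul (Nat.mul_le_mul_right _ h2) h3
      _ = _ := by ring
  refine (sum_le_sum h1).trans ?_
  rw [← mul_sum]
  have h2 : ∑ i ∈ range (c + 1), (a + b + c + 1).choose (c - i) ≤ 2 ^ (a + b + c + 1) := by
    rw [← Nat.sum_range_choose, ← Finset.sum_range_reflect]
    calc ∑ j ∈ range (c + 1), (a + b + c + 1).choose (c - (c + 1 - 1 - j))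
        = ∑ j ∈ range (c + 1), (a + b + c + 1).choose j := by
          refine sum_congr rfl fun j hj => ?_
          have : c - (c + 1 - 1 - j) = j := by have := mem_range.mp hj; omega
          rw [this]
      _ ≤ _ := sum_le_sum_of_subset (by
          intro x hx
          rw [mem_range] at hx ⊢
          omega)
  calc 2 ^ (a + c) * T ^ c * ∑ i ∈ range (c + 1), (a + b + c + 1).choose (c - i)
      ≤ 2 ^ (a + b + c + 1) * T ^ c * 2 ^ (a + b + c + 1) :=
        Nat.mul_le_mul (Nat.mul_le_mul_right _ (Nat.pow_le_pow_right (by norm_num) (by omega))) h2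
    _ = 4 ^ (a + b + c + 1) * T ^ c := by
        rw [show (4 : ℕ) = 2 * 2 by norm_num, mul_pow]; ring

/-- the coefficient of `Y ^ (a + c + 1)` -/
def cA (a b c : ℕ) (Y X : ℤ) : ℤ := (-1) ^ a * cf c a b Y X

/-- the coefficient of `Z ^ (a + b + 1)` -/
def cB (a b c : ℕ) (Z Y : ℤ) : ℤ := (-1) ^ b * cf a b c Z Y

/-- the coefficient of `X ^ (b + c + 1)` -/
def cC (a b c : ℕ) (X Z : ℤ) : ℤ := (-1) ^ c * cf b c a X Z

theorem syz' (a b c : ℕ) {X Y Z : ℤ} (h : X + Y + Z = 0) :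
    Z ^ (a + b + 1) * cB a b c Z Y + X ^ (b + c + 1) * cC a b c X Z +
      Y ^ (a + c + 1) * cA a b c Y X = 0 := by
  have := syz a b c h
  rw [cA, cB, cC, add_comm a c]
  linear_combination this

theorem neg_one_sq' (n : ℕ) : (-1 : ℤ) ^ n * (-1) ^ n = 1 := by
  rw [← mul_pow]; norm_num

theorem nondeg_pos (a b c : ℕ) {X Y Z : ℤ} (h : X + Y + Z = 0)
    (hp : (0 < Y ∧ 0 < Z) ∨ (0 < X ∧ 0 < Y) ∨ (0 < X ∧ 0 < Z)) :
    cA (a + 1) b c Y X * cB a (b + 1) (c + 1) Z Y -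
      cA a (b + 1) (c + 1) Y X * cB (a + 1) b c Z Y ≠ 0 := by
  have hs := syz' (a + 1) b c h
  have hs' := syz' a (b + 1) (c + 1) h
  have ha := neg_one_sq' a
  have hb := neg_one_sq' b
  have hc := neg_one_sq' c
  have hne : ∀ n : ℕ, (-1 : ℤ) ^ n ≠ 0 := fun n => pow_ne_zero _ (by norm_num)
  rcases hp with ⟨hY, hZ⟩ | ⟨hX, hY⟩ | ⟨hX, hZ⟩
  · -- `Y`, `Z` positive
    have r1 := refl' c (a + 1) b (P := Y) (Q := X) (R := Z) (by linarith) hY.ne'
    have r2 := refl' (c + 1) a (b + 1) (P := Y) (Q := X) (R := Z) (by linarith) hY.ne'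
    have p1 := cf_pos (a + 1) c b hY hZ
    have p2 := cf_pos a (b + 1) (c + 1) hZ hY
    have p3 := cf_pos a (c + 1) (b + 1) hY hZ
    have p4 := cf_pos (a + 1) b c hZ hY
    rw [cA, cA, cB, cB, r1, r2]
    have e : (-1 : ℤ) ^ (a + 1) * ((-1) ^ b * cf (a + 1) c b Y Z) * ((-1) ^ (b + 1) *
        cf a (b + 1) (c + 1) Z Y) - (-1) ^ a * ((-1) ^ (b + 1) * cf a (c + 1) (b + 1) Y Z) *
        ((-1) ^ b * cf (a + 1) b c Z Y) = (-1) ^ a * (cf (a + 1) c b Y Z *
        cf a (b + 1) (c + 1) Z Y + cf a (c + 1) (b + 1) Y Z * cf (a + 1) b c Z Y) := by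
      rw [pow_succ, pow_succ]
      linear_combination ((-1) ^ a * (cf (a + 1) c b Y Z *
        cf a (b + 1) (c + 1) Z Y + cf a (c + 1) (b + 1) Y Z * cf (a + 1) b c Z Y)) * hb
    rw [e]
    exact mul_ne_zero (hne a) (by positivity)
  · -- `X`, `Y` positive
    have r1 := refl' b c (a + 1) (P := X) (Q := Z) (R := Y) (by linarith) hX.ne'
    have r2 := refl' (b + 1) (c + 1) a (P := X) (Q := Z) (R := Y) (by linarith) hX.ne'
    have p1 := cf_pos c (a + 1) b hY hX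
    have p2 := cf_pos c b (a + 1) hX hY
    have p3 := cf_pos (c + 1) a (b + 1) hY hX
    have p4 := cf_pos (c + 1) (b + 1) a hX hY
    intro hcon
    have h1 : X ^ (b + c + 1) * (cC (a + 1) b c X Z * cA a (b + 1) (c + 1) Y X -
        X ^ 2 * cC a (b + 1) (c + 1) X Z * cA (a + 1) b c Y X) = 0 := by
      have e1 : X ^ (b + 1 + (c + 1) + 1) = X ^ (b + c + 1) * X ^ 2 := by rw [← pow_add]; congr 1; ring
      have e2 : Z ^ (a + (b + 1) + 1) = Z ^ (a + 1 + b + 1) := by congr 1; ring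
      have e3 : Y ^ (a + (c + 1) + 1) = Y ^ (a + 1 + c + 1) := by congr 1; ring
      rw [e1, e2, e3] at hs'
      linear_combination (cA a (b + 1) (c + 1) Y X) * hs - (cA (a + 1) b c Y X) * hs' +
        Z ^ (a + 1 + b + 1) * hcon
    have h2 := (mul_eq_zero.mp h1).resolve_left (pow_ne_zero _ hX.ne')
    rw [cC, cC, cA, cA, r1, r2] at h2
    have e : (-1 : ℤ) ^ (c + 1) * (cf c b (a + 1) X Y * cf (c + 1) a (b + 1) Y X +
        X ^ 2 * cf (c + 1) (b + 1) a X Y * cf c (a + 1) b Y X) = 0 := by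
      rw [pow_succ, pow_succ] at h2
      rw [pow_succ]
      linear_combination h2 + ((-1) ^ c * (cf c b (a + 1) X Y * cf (c + 1) a (b + 1) Y X +
        X ^ 2 * cf (c + 1) (b + 1) a X Y * cf c (a + 1) b Y X)) * ha
    exact mul_ne_zero (hne _) (by positivity) e
  · -- `X`, `Z` positive
    have r1 := refl' (a + 1) b c (P := Z) (Q := Y) (R := X) (by linarith) hZ.ne'
    have r2 := refl' a (b + 1) (c + 1) (P := Z) (Q := Y) (R := X) (by linarith) hZ.ne'
    have p1 := cf_pos b (a + 1) c hZ hX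
    have p2 := cf_pos b c (a + 1) hX hZ
    have p3 := cf_pos (b + 1) a (c + 1) hZ hX
    have p4 := cf_pos (b + 1) (c + 1) a hX hZ
    intro hcon
    have h1 : X ^ (b + c + 1) * (cC (a + 1) b c X Z * cB a (b + 1) (c + 1) Z Y -
        X ^ 2 * cC a (b + 1) (c + 1) X Z * cB (a + 1) b c Z Y) = 0 := by
      have e1 : X ^ (b + 1 + (c + 1) + 1) = X ^ (b + c + 1) * X ^ 2 := by rw [← pow_add]; congr 1; ring
      have e2 : Z ^ (a + (b + 1) + 1) = Z ^ (a + 1 + b + 1) := by congr 1; ring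
      have e3 : Y ^ (a + (c + 1) + 1) = Y ^ (a + 1 + c + 1) := by congr 1; ring
      rw [e1, e2, e3] at hs'
      linear_combination (cB a (b + 1) (c + 1) Z Y) * hs - (cB (a + 1) b c Z Y) * hs' -
        Y ^ (a + 1 + c + 1) * hcon
    have h2 := (mul_eq_zero.mp h1).resolve_left (pow_ne_zero _ hX.ne')
    rw [cC, cC, cB, cB, r1, r2] at h2
    have e : (-1 : ℤ) ^ b * (cf b c (a + 1) X Z * cf (b + 1) a (c + 1) Z X +
        X ^ 2 * cf (b + 1) (c + 1) a X Z * cf b (a + 1) c Z X) = 0 := by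
      rw [pow_succ, pow_succ] at h2
      linear_combination h2 - ((-1) ^ b * (cf b c (a + 1) X Z * cf (b + 1) a (c + 1) Z X +
        X ^ 2 * cf (b + 1) (c + 1) a X Z * cf b (a + 1) c Z X)) * hc
    exact mul_ne_zero (hne _) (by positivity) e

theorem nondeg (a b c : ℕ) {X Y Z : ℤ} (h : X + Y + Z = 0) (hX : X ≠ 0) (hY : Y ≠ 0) (hZ : Z ≠ 0) :
    cA (a + 1) b c Y X * cB a (b + 1) (c + 1) Z Y -
      cA a (b + 1) (c + 1) Y X * cB (a + 1) b c Z Y ≠ 0 := by
  by_cases hp : (0 < Y ∧ 0 < Z) ∨ (0 < X ∧ 0 < Y) ∨ (0 < X ∧ 0 < Z)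
  · exact nondeg_pos a b c h hp
  · have h1 := nondeg_pos a b c (X := -X) (Y := -Y) (Z := -Z) (by linarith) (by omega)
    intro hcon
    apply h1
    simp only [cA, cB, cf_neg] at hcon ⊢
    have e : (-1 : ℤ) ^ (a + 1) * ((-1) ^ b * cf c (a + 1) b Y X) * ((-1) ^ (b + 1) *
        ((-1) ^ (c + 1) * cf a (b + 1) (c + 1) Z Y)) - (-1) ^ a * ((-1) ^ (b + 1) *
        cf (c + 1) a (b + 1) Y X) * ((-1) ^ b * ((-1) ^ c * cf (a + 1) b c Z Y)) =
        (-1) ^ (b + c + 1) * ((-1) ^ (a + 1) * cf c (a + 1) b Y X * ((-1) ^ (b + 1) *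
        cf a (b + 1) (c + 1) Z Y) - (-1) ^ a * cf (c + 1) a (b + 1) Y X * ((-1) ^ b *
        cf (a + 1) b c Z Y)) := by
      rw [pow_succ, pow_succ, pow_succ, pow_succ, pow_add]
      ring
    rw [e, hcon, mul_zero]

end Pool.Agent.Helper4.PL
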