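import Mathlib
import Pool.Agent.Helper4.PL.Nondeg

/-!
# The inequality for the solutions with a linear relation
-/

set_option autoImplicit false

namespace Pool.Agent.Helper4.PL

theorem step {x y z p q r i j k P Q p₀ q₀ m n T : ℕ} {a b c A B : ℤ} (hcop : Nat.Coprime y z)
    (h : x ^ p + y ^ q = z ^ r) (hp : p = i * P + p₀) (hq : q = j * Q + q₀) (hm : k * m ≤ r)
    (hT1 : a.natAbs * x ^ i ≤ T) (hT2 : b.natAbs * y ^ j ≤ T)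
    (hdvd : (c * (z : ℤ) ^ k) ^ m ∣ (a * (x : ℤ) ^ i) ^ P * A + (b * (y : ℤ) ^ j) ^ Q * B)
    (hne : b ^ Q * (x : ℤ) ^ p₀ * B - a ^ P * (y : ℤ) ^ q₀ * A ≠ 0)
    (hA : A.natAbs * T ^ P ≤ 4 ^ n * T ^ n) (hB : B.natAbs * T ^ Q ≤ 4 ^ n * T ^ n) :
    z ^ (k * m) * ((x ^ i) ^ P * (y ^ j) ^ Q) ≤ 4 ^ n * T ^ n * z ^ r := by
  have hz : (x : ℤ) ^ p = (z : ℤ) ^ r - (y : ℤ) ^ q := by
    have : ((x ^ p + y ^ q : ℕ) : ℤ) = ((z ^ r : ℕ) : ℤ) := by rw [h]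
    push_cast at this
    linarith
  have hd1 : (z : ℤ) ^ (k * m) ∣ (a * (x : ℤ) ^ i) ^ P * A + (b * (y : ℤ) ^ j) ^ Q * B := by
    refine Dvd.dvd.trans ?_ hdvd
    rw [pow_mul]
    exact pow_dvd_pow_of_dvd (Dvd.intro_left _ rfl) _
  have hd2 : (z : ℤ) ^ (k * m) ∣ (y : ℤ) ^ q * (b ^ Q * (x : ℤ) ^ p₀ * B - a ^ P * (y : ℤ) ^ q₀ * A) := by
    have e : (y : ℤ) ^ q * (b ^ Q * (x : ℤ) ^ p₀ * B - a ^ P * (y : ℤ) ^ q₀ * A) =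
        ((a * (x : ℤ) ^ i) ^ P * A + (b * (y : ℤ) ^ j) ^ Q * B) * ((x : ℤ) ^ p₀ * (y : ℤ) ^ q₀) -
          (a ^ P * (y : ℤ) ^ q₀ * A) * (z : ℤ) ^ r := by
      have e1 : (x : ℤ) ^ p = ((x : ℤ) ^ i) ^ P * (x : ℤ) ^ p₀ := by rw [hp, pow_add, pow_mul]
      have e2 : (y : ℤ) ^ q = ((y : ℤ) ^ j) ^ Q * (y : ℤ) ^ q₀ := by rw [hq, pow_add, pow_mul]
      rw [mul_pow, mul_pow]
      linear_combination (-(a ^ P * (y : ℤ) ^ q₀ * A)) * hz + (a ^ P * (y : ℤ) ^ q₀ * A) * e1 +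
        (b ^ Q * (x : ℤ) ^ p₀ * B) * e2
    rw [e]
    exact dvd_sub (Dvd.dvd.mul_right hd1 _) (Dvd.dvd.mul_left (pow_dvd_pow _ hm) _)
  have hcop' : IsCoprime ((z : ℤ) ^ (k * m)) ((y : ℤ) ^ q) :=
    (Nat.isCoprime_iff_coprime.mpr hcop.symm).pow
  have hd3 := hcop'.dvd_of_dvd_mul_left hd2
  have h1 : z ^ (k * m) ≤ (b ^ Q * (x : ℤ) ^ p₀ * B - a ^ P * (y : ℤ) ^ q₀ * A).natAbs := by
    have := Nat.le_of_dvd (Int.natAbs_pos.mpr hne) (Int.natAbs_dvd_natAbs.mpr hd3)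
    rwa [Int.natAbs_pow, Int.natAbs_natCast] at this
  have h2 : (b ^ Q * (x : ℤ) ^ p₀ * B - a ^ P * (y : ℤ) ^ q₀ * A).natAbs ≤
      b.natAbs ^ Q * x ^ p₀ * B.natAbs + a.natAbs ^ P * y ^ q₀ * A.natAbs := by
    refine (Int.natAbs_sub_le _ _).trans (le_of_eq ?_)
    simp only [Int.natAbs_mul, Int.natAbs_pow, Int.natAbs_natCast]
  calc z ^ (k * m) * ((x ^ i) ^ P * (y ^ j) ^ Q)
      ≤ (b.natAbs ^ Q * x ^ p₀ * B.natAbs + a.natAbs ^ P * y ^ q₀ * A.natAbs) *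
        ((x ^ i) ^ P * (y ^ j) ^ Q) := Nat.mul_le_mul_right _ (h1.trans h2)
    _ = x ^ p * ((b.natAbs * y ^ j) ^ Q * B.natAbs) + y ^ q * ((a.natAbs * x ^ i) ^ P * A.natAbs) := by
        rw [hp, hq, pow_add, pow_add, pow_mul, pow_mul, mul_pow, mul_pow]
        ring
    _ ≤ x ^ p * (4 ^ n * T ^ n) + y ^ q * (4 ^ n * T ^ n) := by
        refine Nat.add_le_add (Nat.mul_le_mul_left _ ?_) (Nat.mul_le_mul_left _ ?_)
        · refine (Nat.mul_le_mul_right _ (Nat.pow_le_pow_left hT2 _)).trans ?_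
          rw [mul_comm]
          exact hB
        · refine (Nat.mul_le_mul_right _ (Nat.pow_le_pow_left hT1 _)).trans ?_
          rw [mul_comm]
          exact hA
    _ = 4 ^ n * T ^ n * z ^ r := by rw [← add_mul, h, mul_comm]

/-- the last step -/
theorem last {x y z p q r i j k P Q R p₀ q₀ r₀ m n T : ℕ} (hz0 : 0 < z)
    (hp : p = i * P + p₀) (hq : q = j * Q + q₀) (hr : r = k * R + r₀) (hmR : m ≤ R)
    (hT3 : z ^ k ≤ T) (hT : 1 ≤ T) (hn : 2 * n ≤ P + Q + R)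
    (hn2 : 2 * (n + (R - m)) ≤ P + Q + R + 2)
    (h : z ^ (k * m) * ((x ^ i) ^ P * (y ^ j) ^ Q) ≤ 4 ^ n * T ^ n * z ^ r) :
    (x ^ p * y ^ q) ^ 2 ≤ 4 ^ (P + Q + R) * T ^ (P + Q + R + 2) * (x ^ p₀ * y ^ q₀ * z ^ r₀) ^ 2 := by
  obtain ⟨e, rfl⟩ := Nat.exists_eq_add_of_le hmR
  have h0 : m + e - m = e := by omega
  rw [h0] at hn2
  have h1 : x ^ p * y ^ q ≤ 4 ^ n * T ^ (n + e) * (x ^ p₀ * y ^ q₀ * z ^ r₀) := by
    have hzr : 0 < z ^ r := pow_pos hz0 _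
    apply Nat.le_of_mul_le_mul_right _ hzr
    calc x ^ p * y ^ q * z ^ r = (z ^ (k * m) * ((x ^ i) ^ P * (y ^ j) ^ Q)) *
          (x ^ p₀ * y ^ q₀ * z ^ r₀ * (z ^ k) ^ e) := by
          rw [hp, hq, hr, pow_add, pow_add, pow_add, pow_mul x, pow_mul y, mul_add, pow_add,
            pow_mul z k e]
          ring
      _ ≤ (4 ^ n * T ^ n * z ^ r) * (x ^ p₀ * y ^ q₀ * z ^ r₀ * T ^ e) :=
          Nat.mul_le_mul h (Nat.mul_le_mul_left _ (Nat.pow_le_pow_left hT3 _))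
      _ = 4 ^ n * T ^ (n + e) * (x ^ p₀ * y ^ q₀ * z ^ r₀) * z ^ r := by rw [pow_add]; ring
  calc (x ^ p * y ^ q) ^ 2 ≤ (4 ^ n * T ^ (n + e) * (x ^ p₀ * y ^ q₀ * z ^ r₀)) ^ 2 :=
        Nat.pow_le_pow_left h1 _
    _ = 4 ^ (2 * n) * T ^ (2 * (n + e)) * (x ^ p₀ * y ^ q₀ * z ^ r₀) ^ 2 := by
        rw [mul_pow, mul_pow, ← pow_mul, ← pow_mul, mul_comm n 2, mul_comm (n + e) 2]
    _ ≤ _ := Nat.mul_le_mul_right _ (Nat.mul_le_mul (Nat.pow_le_pow_right (by norm_num) hn)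
        (Nat.pow_le_pow_right hT hn2))

/-- **The inequality.** -/
theorem ineq {x y z p q r i j k T : ℕ} {a b c : ℤ} (hx : 0 < x) (hy : 0 < y) (hz : 0 < z)
    (hcop : Nat.Coprime y z) (h : x ^ p + y ^ q = z ^ r) (ha : a ≠ 0) (hb : b ≠ 0) (hc : c ≠ 0)
    (hrel : a * (x : ℤ) ^ i + b * (y : ℤ) ^ j + c * (z : ℤ) ^ k = 0)
    (hT1 : a.natAbs * x ^ i ≤ T) (hT2 : b.natAbs * y ^ j ≤ T) (hT3 : c.natAbs * z ^ k ≤ T) :
    (x ^ p * y ^ q) ^ 2 ≤ 4 ^ (p / i + q / j + r / k) * T ^ (p / i + q / j + r / k + 2) *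
      (x ^ (p % i) * y ^ (q % j) * z ^ (r % k)) ^ 2 := by
  obtain ⟨P, hP⟩ : ∃ P, P = p / i := ⟨_, rfl⟩
  obtain ⟨Q, hQ⟩ : ∃ Q, Q = q / j := ⟨_, rfl⟩
  obtain ⟨R, hR⟩ : ∃ R, R = r / k := ⟨_, rfl⟩
  obtain ⟨p₀, hp₀⟩ : ∃ p₀, p₀ = p % i := ⟨_, rfl⟩
  obtain ⟨q₀, hq₀⟩ : ∃ q₀, q₀ = q % j := ⟨_, rfl⟩
  obtain ⟨r₀, hr₀⟩ : ∃ r₀, r₀ = r % k := ⟨_, rfl⟩
  have hp : p = i * P + p₀ := by rw [hP, hp₀]; exact (Nat.div_add_mod p i).symm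
  have hq : q = j * Q + q₀ := by rw [hQ, hq₀]; exact (Nat.div_add_mod q j).symm
  have hr : r = k * R + r₀ := by rw [hR, hr₀]; exact (Nat.div_add_mod r k).symm
  rw [← hP, ← hQ, ← hR, ← hp₀, ← hq₀, ← hr₀]
  have ha1 : 1 ≤ a.natAbs := Int.natAbs_pos.mpr ha
  have hb1 : 1 ≤ b.natAbs := Int.natAbs_pos.mpr hb
  have hc1 : 1 ≤ c.natAbs := Int.natAbs_pos.mpr hc
  have hxT : x ^ i ≤ T := le_trans (Nat.le_mul_of_pos_left _ ha1) hT1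
  have hyT : y ^ j ≤ T := le_trans (Nat.le_mul_of_pos_left _ hb1) hT2
  have hzT : z ^ k ≤ T := le_trans (Nat.le_mul_of_pos_left _ hc1) hT3
  have hT : 1 ≤ T := le_trans (Nat.one_le_pow _ _ hx) hxT
  have h4 : 1 ≤ 4 ^ (P + Q + R) := Nat.one_le_pow _ _ (by norm_num)
  have hxp : x ^ p = (x ^ i) ^ P * x ^ p₀ := by rw [hp, pow_add, pow_mul]
  have hyq : y ^ q = (y ^ j) ^ Q * y ^ q₀ := by rw [hq, pow_add, pow_mul]
  have hzr : z ^ r = (z ^ k) ^ R * z ^ r₀ := by rw [hr, pow_add, pow_mul]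
  have hx₀ : 1 ≤ x ^ p₀ := Nat.one_le_pow _ _ hx
  have hy₀ : 1 ≤ y ^ q₀ := Nat.one_le_pow _ _ hy
  have hz₀ : 1 ≤ z ^ r₀ := Nat.one_le_pow _ _ hz
  -- the trivial cases
  have triv : ∀ {e : ℕ}, 2 * e ≤ P + Q + R + 2 → x ^ p * y ^ q ≤ T ^ e * (x ^ p₀ * y ^ q₀ * z ^ r₀) →
      (x ^ p * y ^ q) ^ 2 ≤ 4 ^ (P + Q + R) * T ^ (P + Q + R + 2) * (x ^ p₀ * y ^ q₀ * z ^ r₀) ^ 2 := by
    intro e he h1
    calc (x ^ p * y ^ q) ^ 2 ≤ (T ^ e * (x ^ p₀ * y ^ q₀ * z ^ r₀)) ^ 2 := Nat.pow_le_pow_left h1 _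
      _ = 1 * T ^ (2 * e) * (x ^ p₀ * y ^ q₀ * z ^ r₀) ^ 2 := by
          rw [mul_pow, ← pow_mul, mul_comm e 2, one_mul]
      _ ≤ _ := Nat.mul_le_mul_right _ (Nat.mul_le_mul h4 (Nat.pow_le_pow_right hT he))
  by_cases c1 : Q + R ≤ P + 2
  · refine triv (e := Q + R) (by omega) ?_
    calc x ^ p * y ^ q ≤ z ^ r * y ^ q := Nat.mul_le_mul_right _ (by omega)
      _ = (y ^ j) ^ Q * (z ^ k) ^ R * (1 * y ^ q₀ * z ^ r₀) := by rw [hzr, hyq]; ring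
      _ ≤ T ^ Q * T ^ R * (x ^ p₀ * y ^ q₀ * z ^ r₀) :=
          Nat.mul_le_mul (Nat.mul_le_mul (Nat.pow_le_pow_left hyT _) (Nat.pow_le_pow_left hzT _))
            (Nat.mul_le_mul_right _ (Nat.mul_le_mul_right _ hx₀))
      _ = _ := by rw [pow_add]
  by_cases c2 : P + R ≤ Q + 2
  · refine triv (e := P + R) (by omega) ?_
    calc x ^ p * y ^ q ≤ x ^ p * z ^ r := Nat.mul_le_mul_left _ (by omega)
      _ = (x ^ i) ^ P * (z ^ k) ^ R * (x ^ p₀ * 1 * z ^ r₀) := by rw [hzr, hxp]; ring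
      _ ≤ T ^ P * T ^ R * (x ^ p₀ * y ^ q₀ * z ^ r₀) :=
          Nat.mul_le_mul (Nat.mul_le_mul (Nat.pow_le_pow_left hxT _) (Nat.pow_le_pow_left hzT _))
            (Nat.mul_le_mul_right _ (Nat.mul_le_mul_left _ hy₀))
      _ = _ := by rw [pow_add]
  by_cases c3 : P + Q ≤ R + 2
  · refine triv (e := P + Q) (by omega) ?_
    calc x ^ p * y ^ q = (x ^ i) ^ P * (y ^ j) ^ Q * (x ^ p₀ * y ^ q₀ * 1) := by rw [hxp, hyq]; ring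
      _ ≤ T ^ P * T ^ Q * (x ^ p₀ * y ^ q₀ * z ^ r₀) :=
          Nat.mul_le_mul (Nat.mul_le_mul (Nat.pow_le_pow_left hxT _) (Nat.pow_le_pow_left hyT _))
            (Nat.mul_le_mul_left _ hz₀)
      _ = _ := by rw [pow_add]
  -- the main case
  obtain ⟨a₀, b₀, c₀, e1, e2, e3⟩ : ∃ a₀ b₀ c₀, P = a₀ + 1 + c₀ + 1 ∧ Q = a₀ + 1 + b₀ + 1 ∧
      (R = b₀ + c₀ + 3 ∨ R = b₀ + c₀ + 4) := by
    refine ⟨(P + Q - R) / 2, Q - 2 - (P + Q - R) / 2, P - 2 - (P + Q - R) / 2, ?_, ?_, ?_⟩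
    · omega
    · omega
    · omega
  obtain ⟨X, hX⟩ : ∃ X, X = c * (z : ℤ) ^ k := ⟨_, rfl⟩
  obtain ⟨Y, hY⟩ : ∃ Y, Y = a * (x : ℤ) ^ i := ⟨_, rfl⟩
  obtain ⟨Z, hZ⟩ : ∃ Z, Z = b * (y : ℤ) ^ j := ⟨_, rfl⟩
  have hsum : X + Y + Z = 0 := by rw [hX, hY, hZ]; linarith
  have hxZ : (x : ℤ) ≠ 0 := by exact_mod_cast hx.ne'
  have hyZ : (y : ℤ) ≠ 0 := by exact_mod_cast hy.ne'
  have hzZ : (z : ℤ) ≠ 0 := by exact_mod_cast hz.ne'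
  have hX0 : X ≠ 0 := by rw [hX]; exact mul_ne_zero hc (pow_ne_zero _ hzZ)
  have hY0 : Y ≠ 0 := by rw [hY]; exact mul_ne_zero ha (pow_ne_zero _ hxZ)
  have hZ0 : Z ≠ 0 := by rw [hZ]; exact mul_ne_zero hb (pow_ne_zero _ hyZ)
  have hXT : X.natAbs ≤ T := by
    rw [hX, Int.natAbs_mul, Int.natAbs_pow, Int.natAbs_natCast]; exact hT3
  have hYT : Y.natAbs ≤ T := by
    rw [hY, Int.natAbs_mul, Int.natAbs_pow, Int.natAbs_natCast]; exact hT1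
  have hZT : Z.natAbs ≤ T := by
    rw [hZ, Int.natAbs_mul, Int.natAbs_pow, Int.natAbs_natCast]; exact hT2
  have main : ∀ α β γ : ℕ, P = α + γ + 1 → Q = α + β + 1 → β + γ + 1 ≤ R →
      2 * (α + β + γ + 1) ≤ P + Q + R →
      2 * (α + β + γ + 1 + (R - (β + γ + 1))) ≤ P + Q + R + 2 →
      b ^ Q * (x : ℤ) ^ p₀ * cB α β γ Z Y - a ^ P * (y : ℤ) ^ q₀ * cA α β γ Y X ≠ 0 →
      (x ^ p * y ^ q) ^ 2 ≤ 4 ^ (P + Q + R) * T ^ (P + Q + R + 2) *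
        (x ^ p₀ * y ^ q₀ * z ^ r₀) ^ 2 := by
    intro α β γ hPα hQβ hRm hn1 hn2 hne
    have hs := syz' α β γ hsum
    have habs : ∀ n : ℕ, ((-1 : ℤ) ^ n).natAbs = 1 := by
      intro n
      rw [Int.natAbs_pow]
      norm_num
    refine last hz hp hq hr hRm hzT hT hn1 hn2 (step (a := a) (b := b) (c := c)
      (A := cA α β γ Y X) (B := cB α β γ Z Y) hcop h hp hq ?_ hT1 hT2 ?_ hne ?_ ?_)
    · rw [hr]
      have : k * (β + γ + 1) ≤ k * R := Nat.mul_le_mul_left _ hRm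
      omega
    · rw [← hX, ← hY, ← hZ, hPα, hQβ]
      refine ⟨-cC α β γ X Z, ?_⟩
      linear_combination hs
    · rw [cA, Int.natAbs_mul, habs, one_mul, hPα]
      calc (cf γ α β Y X).natAbs * T ^ (α + γ + 1)
          ≤ (4 ^ (γ + α + β + 1) * T ^ β) * T ^ (α + γ + 1) :=
            Nat.mul_le_mul_right _ (cf_le γ α β hYT hXT)
        _ = 4 ^ (α + β + γ + 1) * T ^ (α + β + γ + 1) := by
            rw [mul_assoc, ← pow_add]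
            congr 1 <;> congr 1 <;> ring
    · rw [cB, Int.natAbs_mul, habs, one_mul, hQβ]
      calc (cf α β γ Z Y).natAbs * T ^ (α + β + 1)
          ≤ (4 ^ (α + β + γ + 1) * T ^ γ) * T ^ (α + β + 1) :=
            Nat.mul_le_mul_right _ (cf_le α β γ hZT hYT)
        _ = 4 ^ (α + β + γ + 1) * T ^ (α + β + γ + 1) := by
            rw [mul_assoc, ← pow_add]
            congr 1 <;> congr 1 <;> ring
  by_cases n1 : b ^ Q * (x : ℤ) ^ p₀ * cB (a₀ + 1) b₀ c₀ Z Y -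
      a ^ P * (y : ℤ) ^ q₀ * cA (a₀ + 1) b₀ c₀ Y X = 0
  · by_cases n2 : b ^ Q * (x : ℤ) ^ p₀ * cB a₀ (b₀ + 1) (c₀ + 1) Z Y -
        a ^ P * (y : ℤ) ^ q₀ * cA a₀ (b₀ + 1) (c₀ + 1) Y X = 0
    · exfalso
      have hD := nondeg a₀ b₀ c₀ hsum hX0 hY0 hZ0
      have hα : a ^ P * (y : ℤ) ^ q₀ ≠ 0 := mul_ne_zero (pow_ne_zero _ ha) (pow_ne_zero _ hyZ)
      apply hD
      apply mul_left_cancel₀ hα
      rw [mul_zero]
      linear_combination (-cB a₀ (b₀ + 1) (c₀ + 1) Z Y) * n1 + (cB (a₀ + 1) b₀ c₀ Z Y) * n2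
    · exact main a₀ (b₀ + 1) (c₀ + 1) (by omega) (by omega) (by omega) (by omega) (by omega) n2
  · exact main (a₀ + 1) b₀ c₀ (by omega) (by omega) (by omega) (by omega) (by omega) n1

end Pool.Agent.Helper4.PL
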