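import Mathlib
import Pool.Agent.Helper4.PL.Ineq
import Pool.Agent.Helper4.PC.Final

/-!
# Finiteness
-/

set_option autoImplicit false

namespace Pool.Agent.Helper4.PL

open Pool.Agent.Helper4.PC (Sol finite_of_bases)

theorem fin {ε : ℝ} (hε : 0 < ε) : {v : ℕ × ℕ × ℕ | ∃ x y z p q r i j k T : ℕ, ∃ a b c : ℤ,
    Sol x y z p q r ∧ 0 < i ∧ 0 < j ∧ 0 < k ∧ a ≠ 0 ∧ b ≠ 0 ∧ c ≠ 0 ∧
    a * (x : ℤ) ^ i + b * (y : ℤ) ^ j + c * (z : ℤ) ^ k = 0 ∧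
    |a| * (x : ℤ) ^ i ≤ T ∧ |b| * (y : ℤ) ^ j ≤ T ∧ |c| * (z : ℤ) ^ k ≤ T ∧
    (T : ℝ) ^ ((1 + ε) * ((p / i + q / j + r / k + 2 : ℕ) : ℝ)) *
      ((x : ℝ) ^ (p % i) * (y : ℝ) ^ (q % j) * (z : ℝ) ^ (r % k)) ^ 2 ≤
        ((x : ℝ) ^ p * (y : ℝ) ^ q) ^ 2 ∧
    v = (x ^ p, y ^ q, z ^ r)}.Finite := by
  obtain ⟨N, hN⟩ : ∃ N : ℕ, N = ⌊(4 : ℝ) ^ (1 / ε)⌋₊ := ⟨_, rfl⟩
  refine (finite_of_bases N).subset ?_
  rintro v ⟨x, y, z, p, q, r, i, j, k, T, a, b, c, hs, hi, hj, hk, ha, hb, hc, hrel, hT1, hT2, hT3,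
    hle, rfl⟩
  have hcop := hs.coprimes
  obtain ⟨hx, hy, hz, -, hp, hq, hr, -, heq⟩ := id hs
  have hnat : ∀ {a : ℤ} {x i : ℕ}, |a| * (x : ℤ) ^ i ≤ T → a.natAbs * x ^ i ≤ T := by
    intro a x i h
    have : ((a.natAbs * x ^ i : ℕ) : ℤ) ≤ (T : ℤ) := by
      push_cast
      exact h
    exact_mod_cast this
  have h1 := hnat hT1
  have h2 := hnat hT2
  have h3 := hnat hT3
  have key := ineq hx hy hz hcop.2.2 heq ha hb hc hrel h1 h2 h3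
  have hxT : x ^ i ≤ T := le_trans (Nat.le_mul_of_pos_left _ (Int.natAbs_pos.mpr ha)) h1
  have hyT : y ^ j ≤ T := le_trans (Nat.le_mul_of_pos_left _ (Int.natAbs_pos.mpr hb)) h2
  have hzT : z ^ k ≤ T := le_trans (Nat.le_mul_of_pos_left _ (Int.natAbs_pos.mpr hc)) h3
  have hT0 : 0 < T := lt_of_lt_of_le (Nat.pos_of_ne_zero (pow_ne_zero _ hx.ne')) hxT
  obtain ⟨s, hs'⟩ : ∃ s, s = p / i + q / j + r / k := ⟨_, rfl⟩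
  rw [← hs'] at key hle
  obtain ⟨ρ, hρ⟩ : ∃ ρ, ρ = x ^ (p % i) * y ^ (q % j) * z ^ (r % k) := ⟨_, rfl⟩
  have hρ0 : 0 < ρ := by
    rw [hρ]
    exact Nat.mul_pos (Nat.mul_pos (pow_pos hx _) (pow_pos hy _)) (pow_pos hz _)
  have hTR : (0 : ℝ) < T := by exact_mod_cast hT0
  have hT1R : (1 : ℝ) ≤ T := by exact_mod_cast hT0
  have keyR : ((x : ℝ) ^ p * (y : ℝ) ^ q) ^ 2 ≤ 4 ^ s * (T : ℝ) ^ (s + 2) * (ρ : ℝ) ^ 2 := by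
    rw [← hρ] at key
    exact_mod_cast key
  have hρR : ((x : ℝ) ^ (p % i) * (y : ℝ) ^ (q % j) * (z : ℝ) ^ (r % k)) = (ρ : ℝ) := by
    rw [hρ]; push_cast; ring
  rw [hρR] at hle
  have h4 := hle.trans keyR
  have h5 : (0 : ℝ) < (ρ : ℝ) ^ 2 := by positivity
  have h6 : (T : ℝ) ^ ((1 + ε) * ((s + 2 : ℕ) : ℝ)) ≤ 4 ^ s * (T : ℝ) ^ (s + 2) :=
    le_of_mul_le_mul_right h4 h5
  have h7 : (T : ℝ) ^ ((1 + ε) * ((s + 2 : ℕ) : ℝ)) = (T : ℝ) ^ (ε * ((s + 2 : ℕ) : ℝ)) *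
      (T : ℝ) ^ (s + 2) := by
    rw [← Real.rpow_natCast (T : ℝ) (s + 2), ← Real.rpow_add hTR]
    congr 1
    ring
  rw [h7] at h6
  have h8 : (T : ℝ) ^ (ε * ((s + 2 : ℕ) : ℝ)) ≤ 4 ^ s := le_of_mul_le_mul_right h6 (by positivity)
  have h9 : (T : ℝ) ^ ε ≤ 4 := by
    by_contra hcon
    push Not at hcon
    have h10 : (4 : ℝ) ^ (s + 2) < ((T : ℝ) ^ ε) ^ (s + 2) :=
      pow_lt_pow_left₀ hcon (by norm_num) (by omega)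
    rw [← Real.rpow_natCast ((T : ℝ) ^ ε), ← Real.rpow_mul hTR.le] at h10
    have h11 : (4 : ℝ) ^ s ≤ 4 ^ (s + 2) := pow_le_pow_right₀ (by norm_num) (by omega)
    linarith
  have hTN : T ≤ N := by
    rw [hN]
    apply Nat.le_floor
    have h10 := Real.rpow_le_rpow (by positivity) h9 (by positivity : 0 ≤ 1 / ε)
    rwa [← Real.rpow_mul hTR.le, mul_one_div_cancel hε.ne', Real.rpow_one] at h10
  exact ⟨x, y, z, p, q, r, hs, ((Nat.le_self_pow hi.ne' x).trans hxT).trans hTN,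
    ((Nat.le_self_pow hj.ne' y).trans hyT).trans hTN,
    ((Nat.le_self_pow hk.ne' z).trans hzT).trans hTN, rfl⟩

end Pool.Agent.Helper4.PL
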